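import Mathlib

/-!
# Orbits avoiding a point modulo primes: the set of primes can be thin

For an integer matrix `A` of determinant `±1` and `d ≥ 2` let `Φ = A ∘ (x_i ↦ x_i ^ d)`, a morphism
of degree `d` of `ℙ^N` with good reduction at every prime. If `gcd (d, p - 1) = 1`, then `Φ` is a
permutation of the nonzero vectors over the field with `p` elements, so every point is periodic
modulo `p`. If the forward orbits of `γ₁` and `γ₂` meet (for example `γ₁ = Φ (γ₂)`), then some
iterate of `γ₁` is congruent to `γ₂` modulo `p`.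
-/

set_option autoImplicit false

namespace Pool.Agent.Results.MP_df4dfc_nt.FewAvoidingPrimes

/-- The map `Φ` on integer vectors: the `d`-th powers of the coordinates, followed by `A`. -/
def Phi {N : ℕ} (A : Matrix (Fin (N + 1)) (Fin (N + 1)) ℤ) (d : ℕ) (x : Fin (N + 1) → ℤ) :
    Fin (N + 1) → ℤ :=
  A.mulVec fun i => x i ^ d

/-- The vectors `x`, `y` define the same point of the projective space over `ZMod p`. -/
def CongrMod {N : ℕ} (p : ℕ) (x y : Fin (N + 1) → ℤ) : Prop :=
  ∃ u : ZMod p, u ≠ 0 ∧ ∀ i, ((x i : ℤ) : ZMod p) = u * ((y i : ℤ) : ZMod p)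

/-- The primes `p` modulo which no iterate of `x` is congruent to `y`. -/
def S {N : ℕ} (A : Matrix (Fin (N + 1)) (Fin (N + 1)) ℤ) (d : ℕ) (x y : Fin (N + 1) → ℤ) :
    Set ℕ :=
  {p | p.Prime ∧ ∀ m : ℕ, ¬ CongrMod p ((Phi A d)^[m] x) y}

/-- The coordinates have no common prime divisor. -/
def Primitive {N : ℕ} (x : Fin (N + 1) → ℤ) : Prop :=
  ∀ p : ℕ, p.Prime → ∃ i, ((x i : ℤ) : ZMod p) ≠ 0

section mod
variable {N : ℕ} (A : Matrix (Fin (N + 1)) (Fin (N + 1)) ℤ) (d p : ℕ)

/-- reduction of `Φ` -/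
def PhiMod (x : Fin (N + 1) → ZMod p) : Fin (N + 1) → ZMod p :=
  (A.map (Int.castRingHom (ZMod p))).mulVec fun i => x i ^ d

/-- reduction of vectors -/
def red (x : Fin (N + 1) → ℤ) : Fin (N + 1) → ZMod p := fun i => ((x i : ℤ) : ZMod p)

lemma red_Phi (x : Fin (N + 1) → ℤ) : red p (Phi A d x) = PhiMod A d p (red p x) := by
  funext i
  simp [red, Phi, PhiMod, Matrix.mulVec, dotProduct]

lemma red_iter (x : Fin (N + 1) → ℤ) (m : ℕ) :
    red p ((Phi A d)^[m] x) = (PhiMod A d p)^[m] (red p x) := by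
  induction m with
  | zero => rfl
  | succ m ih => rw [Function.iterate_succ_apply', Function.iterate_succ_apply', red_Phi, ih]

variable {A}

lemma mulVec_inj (hA : IsUnit A.det) :
    Function.Injective (A.map (Int.castRingHom (ZMod p))).mulVec := by
  have h : IsUnit (A.map (Int.castRingHom (ZMod p))) := by
    rw [Matrix.isUnit_iff_isUnit_det]
    have := hA.map (Int.castRingHom (ZMod p))
    rwa [RingHom.map_det] at this
  exact Matrix.mulVec_injective_of_isUnit h

lemma pow_inj (hp : p.Prime) (hd : 0 < d) (hc : Nat.Coprime d (p - 1)) :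
    Function.Injective fun x : ZMod p => x ^ d := by
  have := Fact.mk hp
  intro x y h
  dsimp only at h
  by_cases hx : x = 0
  · rw [hx, zero_pow (by omega)] at h
    rw [hx]
    exact (pow_eq_zero_iff (by omega)).1 h.symm |>.symm
  · have hy : y ≠ 0 := by
      rintro rfl
      rw [zero_pow (by omega)] at h
      exact hx ((pow_eq_zero_iff (by omega)).1 h)
    have h1 : (x / y) ^ d = 1 := by
      rw [div_pow, h, div_self (pow_ne_zero _ hy)]
    have h2 : (x / y) ^ (p - 1) = 1 := ZMod.pow_card_sub_one_eq_one (div_ne_zero hx hy)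
    have h3 : orderOf (x / y) ∣ 1 := by
      have := Nat.dvd_gcd (orderOf_dvd_of_pow_eq_one h1) (orderOf_dvd_of_pow_eq_one h2)
      rwa [hc] at this
    have h4 : x / y = 1 := by
      rw [← orderOf_eq_one_iff]
      exact Nat.dvd_one.1 h3
    rwa [div_eq_one_iff_eq hy] at h4

lemma PhiMod_inj (hA : IsUnit A.det) (hp : p.Prime) (hd : 0 < d) (hc : Nat.Coprime d (p - 1)) :
    Function.Injective (PhiMod A d p) := by
  intro x y h
  have h1 := mulVec_inj p hA h
  funext i
  exact pow_inj d p hp hd hc (congrFun h1 i)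

lemma Phi_prim (hA : IsUnit A.det) (hd : d ≠ 0) {x : Fin (N + 1) → ℤ} (hx : Primitive x) :
    Primitive (Phi A d x) := by
  intro p hp
  have := Fact.mk hp
  by_contra hcon
  push Not at hcon
  have h1 : red p (Phi A d x) = 0 := funext hcon
  rw [red_Phi] at h1
  have h2 : (A.map (Int.castRingHom (ZMod p))).mulVec (fun i => red p x i ^ d) =
      (A.map (Int.castRingHom (ZMod p))).mulVec 0 := by
    rw [Matrix.mulVec_zero]; exact h1
  have h3 := mulVec_inj p hA h2
  obtain ⟨i, hi⟩ := hx p hp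
  exact hi ((pow_eq_zero_iff hd).1 (congrFun h3 i))

end mod

lemma finite_perm {α : Type*} [Finite α] (f : α → α) (hf : Function.Injective f) :
    ∃ T, 0 < T ∧ f^[T] = id := by
  classical
  let e : Equiv.Perm α := Equiv.ofBijective f (Finite.injective_iff_bijective.1 hf)
  obtain ⟨T, hT, h⟩ := (isOfFinOrder_iff_pow_eq_one).1 (isOfFinOrder_of_finite e)
  refine ⟨T, hT, ?_⟩
  funext x
  have h1 : (e ^ T) x = x := by rw [h]; rfl
  rw [Equiv.Perm.coe_pow] at h1
  exact h1

theorem main {N : ℕ} (A : Matrix (Fin (N + 1)) (Fin (N + 1)) ℤ) (hA : IsUnit A.det) (d : ℕ)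
    (hd : 2 ≤ d) (x y : Fin (N + 1) → ℤ) (a b : ℕ) (hxy : (Phi A d)^[a] x = (Phi A d)^[b] y)
    (p : ℕ) (hp : p.Prime) (hc : Nat.Coprime d (p - 1)) :
    ∃ m, CongrMod p ((Phi A d)^[m] x) y := by
  have := Fact.mk hp
  obtain ⟨T, hT, h⟩ := finite_perm (PhiMod A d p) (PhiMod_inj d p hA hp (by omega) hc)
  refine ⟨T * b - b + a, 1, one_ne_zero, fun i => ?_⟩
  have h1 : red p ((Phi A d)^[T * b - b + a] x) = red p y := by
    rw [Function.iterate_add_apply, hxy, ← Function.iterate_add_apply, red_iter]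
    have e : T * b - b + b = T * b := by
      have : b ≤ T * b := Nat.le_mul_of_pos_left b hT
      omega
    rw [e, Function.iterate_mul, h, Function.iterate_id]
    rfl
  rw [one_mul]
  exact congrFun h1 i

/-- the matrix of the example -/
def Ex (n : ℕ) : Matrix (Fin (n + 2)) (Fin (n + 2)) ℤ :=
  fun i j => if j = i ∨ (j : ℕ) = i + 1 then 1 else 0

lemma Ex_det (n : ℕ) : (Ex n).det = 1 := by
  rw [Matrix.det_of_isUpperTriangular]
  · simp [Ex]
  · intro i j hij
    have h : (j : ℕ) < i := hij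
    simp only [Ex]
    rw [if_neg]
    rintro (h1 | h1)
    · rw [h1] at h; exact lt_irrefl _ h
    · omega

/-- the point of the example -/
def ey (n : ℕ) : Fin (n + 2) → ℤ := fun i => if i = Fin.last (n + 1) then 1 else 0

lemma Ex_last (n d : ℕ) (x : Fin (n + 2) → ℤ) :
    Phi (Ex n) d x (Fin.last (n + 1)) = x (Fin.last (n + 1)) ^ d := by
  simp only [Phi, Matrix.mulVec, dotProduct]
  rw [Finset.sum_eq_single (Fin.last (n + 1))]
  · simp [Ex]
  · intro j _ hj
    have h : (j : ℕ) < n + 2 := j.2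
    simp only [Ex]
    rw [if_neg, zero_mul]
    rintro (h1 | h1)
    · exact hj h1
    · rw [Fin.val_last] at h1; omega
  · intro h; exact absurd (Finset.mem_univ _) h

lemma Ex_prev (n d : ℕ) (x : Fin (n + 2) → ℤ) :
    Phi (Ex n) d x (Fin.last n).castSucc =
      x (Fin.last n).castSucc ^ d + x (Fin.last (n + 1)) ^ d := by
  simp only [Phi, Matrix.mulVec, dotProduct]
  rw [Fin.sum_univ_castSucc, Finset.sum_eq_single (Fin.last n)]
  · simp [Ex]
  · intro j _ hj
    have h : (j : ℕ) < n + 1 := j.2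
    simp only [Ex]
    rw [if_neg, zero_mul]
    rintro (h1 | h1)
    · exact hj (Fin.castSucc_injective _ h1)
    · simp only [Fin.val_castSucc, Fin.val_last] at h1
      omega
  · intro h; exact absurd (Finset.mem_univ _) h

lemma Ex_iter (n d : ℕ) (m : ℕ) :
    (Phi (Ex n) d)^[m] (Phi (Ex n) d (ey n)) (Fin.last (n + 1)) = 1 ∧
      0 < (Phi (Ex n) d)^[m] (Phi (Ex n) d (ey n)) (Fin.last n).castSucc := by
  induction m with
  | zero =>
    simp only [Function.iterate_zero, id_eq]
    rw [Ex_last, Ex_prev]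
    have h1 : ey n (Fin.last (n + 1)) = 1 := by simp [ey]
    have h2 : ey n (Fin.last n).castSucc = 0 := by
      simp only [ey]
      rw [if_neg]
      intro h
      have := congrArg Fin.val h
      simp at this
    rw [h1, h2, one_pow]
    refine ⟨rfl, ?_⟩
    positivity
  | succ m ih =>
    rw [Function.iterate_succ_apply', Ex_last, Ex_prev, ih.1, one_pow]
    refine ⟨rfl, ?_⟩
    have := ih.2
    positivity

/-- **The primes modulo which the orbit of `γ₁` avoids `γ₂` can be few.** -/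
theorem result :
    (∀ (N d : ℕ) (A : Matrix (Fin (N + 1)) (Fin (N + 1)) ℤ) (x : Fin (N + 1) → ℤ),
      IsUnit A.det → 2 ≤ d → Primitive x →
      (∀ m : ℕ, Primitive ((Phi A d)^[m] x)) ∧
      ∀ (y : Fin (N + 1) → ℤ) (a b : ℕ), (Phi A d)^[a] x = (Phi A d)^[b] y →
        ∀ p ∈ S A d x y, ¬ Nat.Coprime d (p - 1)) ∧
    (∀ N : ℕ, 1 ≤ N → ∃ (A : Matrix (Fin (N + 1)) (Fin (N + 1)) ℤ) (y : Fin (N + 1) → ℤ),
      A.det = 1 ∧ Primitive y ∧ ∀ d : ℕ, 2 ≤ d →
        (∀ m : ℕ, ¬ ∃ t : ℚ, ∀ i, (((Phi A d)^[m] (Phi A d y) i : ℤ) : ℚ) = t * ((y i : ℤ) : ℚ)) ∧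
        (d.Prime → ∀ p ∈ S A d (Phi A d y) y, p ≡ 1 [MOD d] ∧ d < p)) := by
  have key : ∀ (N d : ℕ) (A : Matrix (Fin (N + 1)) (Fin (N + 1)) ℤ) (x y : Fin (N + 1) → ℤ),
      IsUnit A.det → 2 ≤ d → ∀ a b : ℕ, (Phi A d)^[a] x = (Phi A d)^[b] y →
        ∀ p ∈ S A d x y, ¬ Nat.Coprime d (p - 1) := by
    intro N d A x y hA hd a b hxy p hp hc
    obtain ⟨m, hm⟩ := main A hA d hd x y a b hxy p hp.1 hc
    exact hp.2 m hm
  refine ⟨fun N d A x hA hd hx => ⟨fun m => ?_, fun y => key N d A x y hA hd⟩, fun N hN => ?_⟩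
  · induction m with
    | zero => exact hx
    | succ m ih =>
      rw [Function.iterate_succ_apply']
      exact Phi_prim d hA (by omega) ih
  · obtain ⟨n, rfl⟩ : ∃ n, N = n + 1 := ⟨N - 1, by omega⟩
    refine ⟨Ex n, ey n, Ex_det n, ?_, fun d hd => ⟨?_, fun hdp p hp => ?_⟩⟩
    · intro p hp
      have := Fact.mk hp
      exact ⟨Fin.last (n + 1), by simp [ey]⟩
    · rintro m ⟨t, ht⟩
      obtain ⟨h1, h2⟩ := Ex_iter n d m
      have h3 := ht (Fin.last n).castSucc
      have h4 : ey n (Fin.last n).castSucc = 0 := by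
        simp only [ey]
        rw [if_neg]
        intro h
        have := congrArg Fin.val h
        simp at this
      rw [h4, Int.cast_zero, mul_zero] at h3
      have h5 : (Phi (Ex n) d)^[m] (Phi (Ex n) d (ey n)) (Fin.last n).castSucc = 0 := by
        exact_mod_cast h3
      omega
    · have h1 := key (n + 1) d (Ex n) _ (ey n) (by rw [Ex_det]; exact isUnit_one) hd 0 1 rfl p hp
      rw [hdp.coprime_iff_not_dvd, not_not] at h1
      have h2 := hp.1.two_le
      refine ⟨?_, ?_⟩
      · exact ((Nat.modEq_iff_dvd' (by omega)).2 h1).symm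
      · have := Nat.le_of_dvd (by omega) h1
        omega

end Pool.Agent.Results.MP_df4dfc_nt.FewAvoidingPrimes
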