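import Pool.Agent.TH742.OC.Upper

/-! MP_df4dfc_nt: data over `ℚ` on `ℙ²` satisfying (H) for which the set `S` of the avoiding primes has
arbitrarily small upper density. -/

namespace Pool.Agent.Results.MP_df4dfc_nt.SmallDensities

open TH742.OC Filter

/-- For every odd prime `l` the morphism `(x^l + z^l : y^l + 2 z^l : z^l)` of `ℙ²` over `ℚ`, of degree
`l`, and the points `γ₁ = (1 : 2 : 1)`, `γ₂ = (0 : 0 : 1)` satisfy (H), and the set `S` of the primes
modulo which no iterate of `γ₁` is congruent to `γ₂` has upper density at most `1/(l-1)`. -/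
theorem result (l : ℕ) (hl : l.Prime) (hl2 : l ≠ 2) :
    ∃ (F : Fin 3 → MvPolynomial (Fin 3) ℚ) (v w : Fin 3 → ℚ), v ≠ 0 ∧ w ≠ 0 ∧
      IsMorphism F l ∧ (∀ m : ℕ, ¬ SamePoint ((ev F)^[m] v) w) ∧
      ∀ ε : ℝ, 0 < ε → ∀ᶠ N : ℕ in atTop,
        (Set.ncard {p : ℕ | p ≤ N ∧ p ∈ SP F v w} : ℝ) ≤
          (1 / ((l : ℝ) - 1) + ε) * Nat.primeCounting N := by
  refine ⟨Phi l, ![1, 2, 1], ![0, 0, 1], ?_, ?_, main hl hl2⟩
  · intro h
    have := congrFun h 0
    simp at this
  · intro h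
    have := congrFun h 2
    simp at this

end Pool.Agent.Results.MP_df4dfc_nt.SmallDensities
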